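import Pool.Agent.W763.PB.Stm

/-!
# Project PB, part Fa: the operator `T = ⊕ D_N U_N D_N⁻¹`
-/

set_option autoImplicit false

open MeasureTheory Filter Topology
open scoped InnerProductSpace BoundedContinuousFunction

namespace Pool.Agent.W962.PB

open Pool.Agent.W763.PB

noncomputable section

variable {H : ℕ → Type} [∀ N, NormedAddCommGroup (H N)] [∀ N, InnerProductSpace ℂ (H N)]
    [∀ N, CompleteSpace (H N)]

/-- the blocks of `T^n` -/
def An (U : ∀ N, H N ≃ₗᵢ[ℂ] H N) (D : ∀ N, H N ≃L[ℂ] H N) (n N : ℕ) : H N →L[ℂ] H N :=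
  ((D N : H N →L[ℂ] H N) ∘L (((U N ^ n : H N ≃ₗᵢ[ℂ] H N) : H N ≃L[ℂ] H N) : H N →L[ℂ] H N)) ∘L
    ((D N).symm : H N →L[ℂ] H N)

omit [∀ N, CompleteSpace (H N)] in
theorem An_apply (U : ∀ N, H N ≃ₗᵢ[ℂ] H N) (D : ∀ N, H N ≃L[ℂ] H N) (n N : ℕ) (x : H N) :
    An U D n N x = D N ((U N ^ n) ((D N).symm x)) := rfl

theorem An_norm (U : ∀ N, H N ≃ₗᵢ[ℂ] H N) (D : ∀ N, H N ≃L[ℂ] H N)
    (h : ∀ N (n : ℕ) x, ‖D N ((U N ^ n) x)‖ ≤ 5 * ‖D N x‖) (n N : ℕ) : ‖An U D n N‖ ≤ 5 := by
  refine ContinuousLinearMap.opNorm_le_bound _ (by norm_num) fun x => ?_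
  rw [An_apply]
  refine (h N n _).trans ?_
  rw [ContinuousLinearEquiv.apply_symm_apply]

theorem fa : S_Fa := by
  intro H _ _ _ U D hlo h5
  set T : lp H 2 →L[ℂ] lp H 2 := lp.mapCLM 2 (An U D 1) (by norm_num : (0 : ℝ) ≤ 5)
    (An_norm U D h5 1) with hT
  have hT1 : ∀ (x : lp H 2) (N : ℕ), (T x : ∀ N, H N) N = D N (U N ((D N).symm ((x : ∀ N, H N) N))) := by
    intro x N
    have : (T x : ∀ N, H N) N = An U D 1 N ((x : ∀ N, H N) N) := rfl
    rw [this, An_apply, pow_one]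
  have hTn : ∀ (n : ℕ) (x : lp H 2) (N : ℕ),
      ((T ^ n) x : ∀ N, H N) N = D N ((U N ^ n) ((D N).symm ((x : ∀ N, H N) N))) := by
    intro n
    induction n with
    | zero =>
      intro x N
      rw [pow_zero, pow_zero]
      show (x : ∀ N, H N) N = D N ((D N).symm ((x : ∀ N, H N) N))
      rw [ContinuousLinearEquiv.apply_symm_apply]
    | succ n ih =>
      intro x N
      rw [pow_succ]
      show ((T ^ n) (T x) : ∀ N, H N) N = _
      rw [ih, hT1, ContinuousLinearEquiv.symm_apply_apply, pow_succ]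
      rfl
  refine ⟨T, hT1, ?_, ?_, ?_⟩
  · intro n
    refine ContinuousLinearMap.opNorm_le_bound _ (by norm_num) fun x => ?_
    have h1 : (T ^ n) x = lp.mapCLM 2 (An U D n) (by norm_num : (0 : ℝ) ≤ 5)
        (An_norm U D h5 n) x := by
      apply Subtype.ext
      funext N
      exact hTn n x N
    rw [h1]
    exact (ContinuousLinearMap.le_opNorm _ _).trans
      (mul_le_mul_of_nonneg_right (lp.norm_mapCLM_le _ _ _ _) (norm_nonneg _))
  · intro x hx hlim
    obtain ⟨N, hN⟩ : ∃ N, (x : ∀ N, H N) N ≠ 0 := by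
      by_contra hcon
      push Not at hcon
      exact hx (Subtype.ext (funext hcon))
    have h1 : ∀ n : ℕ, ‖(D N).symm ((x : ∀ N, H N) N)‖ ≤ ‖(T ^ n) x‖ := by
      intro n
      calc ‖(D N).symm ((x : ∀ N, H N) N)‖ = ‖(U N ^ n) ((D N).symm ((x : ∀ N, H N) N))‖ :=
            ((U N ^ n).norm_map _).symm
        _ ≤ ‖D N ((U N ^ n) ((D N).symm ((x : ∀ N, H N) N)))‖ := hlo N _
        _ = ‖((T ^ n) x : ∀ N, H N) N‖ := by rw [hTn]
        _ ≤ ‖(T ^ n) x‖ := lp.norm_apply_le_norm (by norm_num) _ _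
    have h2 : Tendsto (fun n : ℕ => ‖(T ^ n) x‖) atTop (𝓝 0) := by
      have := hlim.norm
      rwa [norm_zero] at this
    have h3 := ge_of_tendsto' h2 h1
    have h4 : (D N).symm ((x : ∀ N, H N) N) = 0 := norm_le_zero_iff.mp h3
    exact hN ((D N).symm.map_eq_zero_iff.mp h4)
  · intro x hx hlim
    obtain ⟨N, hN⟩ : ∃ N, (x : ∀ N, H N) N ≠ 0 := by
      by_contra hcon
      push Not at hcon
      exact hx (Subtype.ext (funext hcon))
    set v : H N := (x : ∀ N, H N) N with hv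
    set K : ℝ := ‖(D N : H N →L[ℂ] H N)‖ with hK
    have h1 : ∀ n : ℕ, ‖v‖ ^ 2 ≤ K * ‖v‖ * ‖(ContinuousLinearMap.adjoint T ^ n) x‖ := by
      intro n
      have e1 : ContinuousLinearMap.adjoint T ^ n = ContinuousLinearMap.adjoint (T ^ n) := by
        rw [← ContinuousLinearMap.star_eq_adjoint, ← ContinuousLinearMap.star_eq_adjoint, star_pow]
      rw [e1]
      set z : H N := D N ((U N ^ n).symm ((D N).symm v)) with hz
      have e2 : (T ^ n) (lp.single 2 N z) = lp.single 2 N v := by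
        apply Subtype.ext
        funext i
        rw [hTn]
        by_cases hi : i = N
        · subst hi
          rw [lp.single_apply_self, lp.single_apply_self, hz,
            ContinuousLinearEquiv.symm_apply_apply, LinearIsometryEquiv.apply_symm_apply,
            ContinuousLinearEquiv.apply_symm_apply]
        · rw [lp.single_apply_ne _ _ _ hi, lp.single_apply_ne _ _ _ hi, map_zero, map_zero,
            map_zero]
      have e3 : ⟪lp.single 2 N z, ContinuousLinearMap.adjoint (T ^ n) x⟫_ℂ = ⟪v, v⟫_ℂ := by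
        rw [ContinuousLinearMap.adjoint_inner_right, e2, lp.inner_single_left]
      have e4 : ‖z‖ ≤ K * ‖v‖ := by
        calc ‖z‖ ≤ K * ‖(U N ^ n).symm ((D N).symm v)‖ :=
              (D N : H N →L[ℂ] H N).le_opNorm _
          _ = K * ‖(D N).symm v‖ := by rw [LinearIsometryEquiv.norm_map]
          _ ≤ K * ‖D N ((D N).symm v)‖ := by
              gcongr
              exact hlo N _
          _ = K * ‖v‖ := by rw [ContinuousLinearEquiv.apply_symm_apply]
      calc ‖v‖ ^ 2 = ‖⟪v, v⟫_ℂ‖ := by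
            rw [inner_self_eq_norm_sq_to_K, norm_pow]
            simp
        _ = ‖⟪lp.single 2 N z, ContinuousLinearMap.adjoint (T ^ n) x⟫_ℂ‖ := by rw [e3]
        _ ≤ ‖lp.single 2 N z‖ * ‖ContinuousLinearMap.adjoint (T ^ n) x‖ := norm_inner_le_norm _ _
        _ = ‖z‖ * ‖ContinuousLinearMap.adjoint (T ^ n) x‖ := by
            rw [lp.norm_single (by norm_num)]
        _ ≤ K * ‖v‖ * ‖ContinuousLinearMap.adjoint (T ^ n) x‖ := by gcongr
    have h2 : Tendsto (fun n : ℕ => K * ‖v‖ * ‖(ContinuousLinearMap.adjoint T ^ n) x‖) atTop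
        (𝓝 (K * ‖v‖ * 0)) := by
      refine Tendsto.const_mul _ ?_
      have := hlim.norm
      rwa [norm_zero] at this
    have h3 := ge_of_tendsto' h2 h1
    rw [mul_zero] at h3
    have h4 : 0 < ‖v‖ ^ 2 := by
      have := norm_pos_iff.mpr hN
      positivity
    linarith

end

end Pool.Agent.W962.PB
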